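import Pool.Agent.H694R3.MMT.Defs

/-! # Few wires enter a set of gates which computes many entries of the product -/

open Finset MvPolynomial

namespace Pool.Agent.H694R3.MMT

/-- a polynomial ring generated by `Z` elements has at most `|Z|` variables -/
lemma card_le_of_adjoin {F : Type*} [Field F] {ι κ : Type} [Fintype ι] (Z : Finset κ)
    (f : κ → MvPolynomial ι F)
    (h : ∀ i, (X i : MvPolynomial ι F) ∈ Algebra.adjoin F (f '' (Z : Set κ))) :
    Fintype.card ι ≤ Z.card := by
  classical
  set s : Set (MvPolynomial ι F) := f '' (Z : Set κ) with hs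
  have htop : Algebra.adjoin F s = ⊤ := by
    rw [eq_top_iff, ← MvPolynomial.adjoin_range_X]
    apply Algebra.adjoin_le
    rintro _ ⟨i, rfl⟩
    exact h i
  have halg : Algebra.IsAlgebraic (Algebra.adjoin F s) (MvPolynomial ι F) := by
    constructor
    intro x
    have hx : x ∈ Algebra.adjoin F s := by rw [htop]; exact Algebra.mem_top
    exact isAlgebraic_algebraMap (⟨x, hx⟩ : Algebra.adjoin F s)
  have h1 : Algebra.trdeg F (MvPolynomial ι F) ≤ Cardinal.mk s :=
    Algebra.IsAlgebraic.trdeg_le_cardinalMk F s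
  rw [MvPolynomial.trdeg_of_isDomain] at h1
  have h2 : Cardinal.mk s ≤ (Z.card : Cardinal) := by
    have : s = ((Z.image f : Finset _) : Set _) := by
      rw [hs, Finset.coe_image]
    rw [this]
    have h3 : Cardinal.mk ((Z.image f : Finset _) : Set (MvPolynomial ι F)) =
        ((Z.image f).card : Cardinal) := by
      simp
    rw [h3]
    exact_mod_cast Finset.card_image_le
  have h4 := h1.trans h2
  rw [Cardinal.mk_fintype, Cardinal.lift_natCast] at h4
  exact_mod_cast h4

variable {F : Type*} [Field F] {m : ℕ}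

/-- if a ring homomorphism sends the variables read by the gates in `P` into an algebra that
contains the images of the values of the gates feeding `P`, then it sends the values of all gates
in `P` there -/
lemma val_mem {σ : Type} (C : Circ F σ) (P Z : Finset (Fin C.size))
    (hZ : ∀ g ∈ P, ∀ h ∈ C.feeds g, h ∈ P ∨ h ∈ Z) {ι : Type}
    (φ : MvPolynomial σ F →ₐ[F] MvPolynomial ι F)
    (hφ : ∀ g ∈ P, ∀ x ∈ C.reads g, φ (X x) ∈
      Algebra.adjoin F ((fun h => φ (C.val h)) '' (Z : Set (Fin C.size)))) :
    ∀ g ∈ P, φ (C.val g) ∈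
      Algebra.adjoin F ((fun h => φ (C.val h)) '' (Z : Set (Fin C.size))) := by
  intro g
  induction g using WellFoundedLT.induction with
  | _ g ih =>
    intro hg
    have h1 := C.sound g
    have h2 : φ (C.val g) ∈ (Algebra.adjoin F
        (MvPolynomial.X '' (C.reads g : Set σ) ∪ C.val '' (C.feeds g : Set (Fin C.size)))).map φ :=
      ⟨_, h1, rfl⟩
    rw [AlgHom.map_adjoin] at h2
    refine (Algebra.adjoin_le ?_ : _ ≤ _) h2
    rintro _ ⟨y, hy, rfl⟩
    rcases hy with ⟨x, hx, rfl⟩ | ⟨h, hh, rfl⟩
    · exact hφ g hg x hx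
    · rcases hZ g hg h hh with h' | h'
      · exact ih h (C.acyclic g h hh) h'
      · exact Algebra.subset_adjoin ⟨h, h', rfl⟩

section

variable [NeZero m]

/-- the second matrix is the permutation matrix of the shift by `s` -/
lemma shift_A (C : Circ F (Vars m)) (P Z : Finset (Fin C.size))
    (hZ : ∀ g ∈ P, ∀ h ∈ C.feeds g, h ∈ P ∨ h ∈ Z) (RA : Finset (Fin m × Fin m))
    (hA : ∀ g ∈ P, ∀ e, Sum.inl e ∈ C.reads g → e ∈ RA)
    (O : Finset (Fin m × Fin m)) (hO : ∀ o ∈ O, ∃ g ∈ P, C.val g = entry F m o.1 o.2)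
    (s : Fin m) : (O.filter fun o => (o.1, o.2 + s) ∉ RA).card ≤ Z.card := by
  classical
  set Os := O.filter fun o => (o.1, o.2 + s) ∉ RA with hOs
  let φ : MvPolynomial (Vars m) F →ₐ[F] MvPolynomial Os F := aeval (fun x => match x with
    | Sum.inl e => if h : (e.1, e.2 - s) ∈ Os then X ⟨(e.1, e.2 - s), h⟩ else 0
    | Sum.inr e => if e.1 = e.2 + s then 1 else 0)
  have hl : ∀ e : Fin m × Fin m, φ (X (Sum.inl e)) =
      if h : (e.1, e.2 - s) ∈ Os then X ⟨(e.1, e.2 - s), h⟩ else 0 := fun e => by
    simp [φ]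
  have hr : ∀ e : Fin m × Fin m, φ (X (Sum.inr e)) = if e.1 = e.2 + s then 1 else 0 := fun e => by
    simp [φ]
  have hent : ∀ o (ho : o ∈ Os), φ (entry F m o.1 o.2) = X ⟨o, ho⟩ := by
    intro o ho
    unfold entry
    rw [map_sum, Finset.sum_eq_single (o.2 + s)]
    · rw [map_mul, hl, hr]
      simp only [add_sub_cancel_right, Prod.mk.eta]
      rw [dif_pos ho, if_true, mul_one]
    · intro k _ hk
      rw [map_mul, hr, if_neg (by simpa using hk), mul_zero]
    · intro h
      exact absurd (mem_univ _) h
  have hmem := val_mem C P Z hZ φ (by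
    intro g hg x hx
    rcases x with e | e
    · rw [hl, dif_neg]
      · exact Subalgebra.zero_mem _
      · intro h
        rw [hOs, mem_filter] at h
        apply h.2
        simp only [sub_add_cancel]
        exact hA g hg e hx
    · rw [hr]
      split_ifs
      · exact Subalgebra.one_mem _
      · exact Subalgebra.zero_mem _)
  have h := card_le_of_adjoin (ι := Os) Z (fun h => φ (C.val h)) (by
    intro o
    obtain ⟨g, hg, hgo⟩ := hO o.1 (mem_filter.1 o.2).1
    have h1 := hmem g hg
    rw [hgo, hent o.1 o.2] at h1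
    exact h1)
  rwa [Fintype.card_coe] at h

/-- the first matrix is the permutation matrix of the shift by `s` -/
lemma shift_B (C : Circ F (Vars m)) (P Z : Finset (Fin C.size))
    (hZ : ∀ g ∈ P, ∀ h ∈ C.feeds g, h ∈ P ∨ h ∈ Z) (RB : Finset (Fin m × Fin m))
    (hB : ∀ g ∈ P, ∀ e, Sum.inr e ∈ C.reads g → e ∈ RB)
    (O : Finset (Fin m × Fin m)) (hO : ∀ o ∈ O, ∃ g ∈ P, C.val g = entry F m o.1 o.2)
    (s : Fin m) : (O.filter fun o => (o.1 + s, o.2) ∉ RB).card ≤ Z.card := by
  classical
  set Os := O.filter fun o => (o.1 + s, o.2) ∉ RB with hOs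
  let φ : MvPolynomial (Vars m) F →ₐ[F] MvPolynomial Os F := aeval (fun x => match x with
    | Sum.inr e => if h : (e.1 - s, e.2) ∈ Os then X ⟨(e.1 - s, e.2), h⟩ else 0
    | Sum.inl e => if e.2 = e.1 + s then 1 else 0)
  have hr : ∀ e : Fin m × Fin m, φ (X (Sum.inr e)) =
      if h : (e.1 - s, e.2) ∈ Os then X ⟨(e.1 - s, e.2), h⟩ else 0 := fun e => by
    simp [φ]
  have hl : ∀ e : Fin m × Fin m, φ (X (Sum.inl e)) = if e.2 = e.1 + s then 1 else 0 := fun e => by
    simp [φ]
  have hent : ∀ o (ho : o ∈ Os), φ (entry F m o.1 o.2) = X ⟨o, ho⟩ := by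
    intro o ho
    unfold entry
    rw [map_sum, Finset.sum_eq_single (o.1 + s)]
    · rw [map_mul, hl, hr]
      simp only [add_sub_cancel_right, Prod.mk.eta]
      rw [dif_pos ho, if_true, one_mul]
    · intro k _ hk
      rw [map_mul, hl, if_neg (by simpa using hk), zero_mul]
    · intro h
      exact absurd (mem_univ _) h
  have hmem := val_mem C P Z hZ φ (by
    intro g hg x hx
    rcases x with e | e
    · rw [hl]
      split_ifs
      · exact Subalgebra.one_mem _
      · exact Subalgebra.zero_mem _
    · rw [hr, dif_neg]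
      · exact Subalgebra.zero_mem _
      · intro h
        rw [hOs, mem_filter] at h
        apply h.2
        simp only [sub_add_cancel]
        exact hB g hg e hx)
  have h := card_le_of_adjoin (ι := Os) Z (fun h => φ (C.val h)) (by
    intro o
    obtain ⟨g, hg, hgo⟩ := hO o.1 (mem_filter.1 o.2).1
    have h1 := hmem g hg
    rw [hgo, hent o.1 o.2] at h1
    exact h1)
  rwa [Fintype.card_coe] at h

/-- a set of `O` entries, for each shift at most `z` of which avoid the set `R` of pairs: at most
`2 z` of them lie in rows of which at most half is in `R` -/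
lemma count_rows (O R : Finset (Fin m × Fin m)) (z : ℕ)
    (h : ∀ s : Fin m, (O.filter fun o => (o.1, o.2 + s) ∉ R).card ≤ z) :
    (O.filter fun o => 2 * (R.filter fun e => e.1 = o.1).card ≤ m).card ≤ 2 * z := by
  classical
  have h1 : ∑ s : Fin m, (O.filter fun o => (o.1, o.2 + s) ∉ R).card ≤ m * z := by
    calc _ ≤ ∑ _s : Fin m, z := Finset.sum_le_sum fun s _ => h s
      _ = m * z := by simp
  have h2 : ∑ s : Fin m, (O.filter fun o => (o.1, o.2 + s) ∉ R).card =
      ∑ o ∈ O, (univ.filter fun s : Fin m => (o.1, o.2 + s) ∉ R).card := by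
    simp only [card_filter]
    exact Finset.sum_comm
  have h3 : ∀ o ∈ O, m ≤ (univ.filter fun s : Fin m => (o.1, o.2 + s) ∉ R).card +
      (R.filter fun e => e.1 = o.1).card := by
    intro o _
    have e1 : (univ.filter fun s : Fin m => (o.1, o.2 + s) ∈ R).card ≤
        (R.filter fun e => e.1 = o.1).card := by
      apply card_le_card_of_injOn (fun s => (o.1, o.2 + s))
      · intro s hs
        rw [Finset.mem_coe, mem_filter] at hs ⊢
        exact ⟨hs.2, rfl⟩
      · intro s _ s' _ hss
        simpa using hss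
    have e2 := Finset.card_filter_add_card_filter_not (s := (univ : Finset (Fin m)))
      (fun s : Fin m => (o.1, o.2 + s) ∈ R)
    rw [card_univ, Fintype.card_fin] at e2
    omega
  have h4 : (O.filter fun o => 2 * (R.filter fun e => e.1 = o.1).card ≤ m).card * m ≤
      2 * (m * z) := by
    calc _ = ∑ _o ∈ O.filter (fun o => 2 * (R.filter fun e => e.1 = o.1).card ≤ m), m := by
          simp
      _ ≤ ∑ o ∈ O.filter (fun o => 2 * (R.filter fun e => e.1 = o.1).card ≤ m),
          2 * (univ.filter fun s : Fin m => (o.1, o.2 + s) ∉ R).card := by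
          apply Finset.sum_le_sum
          intro o ho
          rw [mem_filter] at ho
          have := h3 o ho.1
          omega
      _ ≤ ∑ o ∈ O, 2 * (univ.filter fun s : Fin m => (o.1, o.2 + s) ∉ R).card :=
          Finset.sum_le_sum_of_subset (filter_subset _ _)
      _ = 2 * ∑ o ∈ O, (univ.filter fun s : Fin m => (o.1, o.2 + s) ∉ R).card := by
          rw [Finset.mul_sum]
      _ ≤ 2 * (m * z) := by
          rw [← h2]
          exact Nat.mul_le_mul_left _ h1
  have hm : 0 < m := Nat.pos_of_ne_zero (NeZero.ne m)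
  have h5 : (O.filter fun o => 2 * (R.filter fun e => e.1 = o.1).card ≤ m).card * m ≤
      (2 * z) * m := by nlinarith
  exact Nat.le_of_mul_le_mul_right h5 hm

/-- at most `2 |R| / m` rows have more than half of their pairs in `R` -/
lemma count_heavy (R : Finset (Fin m × Fin m)) :
    (univ.filter fun i : Fin m => m < 2 * (R.filter fun e => e.1 = i).card).card * m ≤
      2 * R.card := by
  classical
  calc _ = ∑ _i ∈ univ.filter (fun i : Fin m => m < 2 * (R.filter fun e => e.1 = i).card), m := by
        simp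
    _ ≤ ∑ i ∈ univ.filter (fun i : Fin m => m < 2 * (R.filter fun e => e.1 = i).card),
        2 * (R.filter fun e => e.1 = i).card := by
        apply Finset.sum_le_sum
        intro i hi
        rw [mem_filter] at hi
        omega
    _ ≤ ∑ i : Fin m, 2 * (R.filter fun e => e.1 = i).card :=
        Finset.sum_le_sum_of_subset (filter_subset _ _)
    _ = 2 * ∑ i : Fin m, (R.filter fun e => e.1 = i).card := by rw [Finset.mul_sum]
    _ = 2 * R.card := by
        rw [← Finset.card_eq_sum_card_fiberwise (f := fun e : Fin m × Fin m => e.1)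
          (t := univ) (fun _ _ => mem_coe.2 (mem_univ _))]

/-- the number of entries computed by the gates in `P` -/
theorem block (C : Circ F (Vars m)) (P Z : Finset (Fin C.size))
    (hZ : ∀ g ∈ P, ∀ h ∈ C.feeds g, h ∈ P ∨ h ∈ Z) (RA RB : Finset (Fin m × Fin m))
    (hA : ∀ g ∈ P, ∀ e, Sum.inl e ∈ C.reads g → e ∈ RA)
    (hB : ∀ g ∈ P, ∀ e, Sum.inr e ∈ C.reads g → e ∈ RB)
    (O : Finset (Fin m × Fin m)) (hO : ∀ o ∈ O, ∃ g ∈ P, C.val g = entry F m o.1 o.2) :
    m ^ 2 * O.card ≤ 4 * m ^ 2 * Z.card + 4 * (RA.card * RB.card) := by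
  classical
  set sw : Fin m × Fin m → Fin m × Fin m := Prod.swap with hsw
  have hinj : Function.Injective sw := Prod.swap_injective
  have h1 := count_rows O RA Z.card (fun s => shift_A C P Z hZ RA hA O hO s)
  have h2 : (O.filter fun o => 2 * (RB.filter fun e => e.2 = o.2).card ≤ m).card ≤ 2 * Z.card := by
    have h3 := count_rows (O.image sw) (RB.image sw) Z.card (by
      intro s
      refine le_trans (le_of_eq ?_) (shift_B C P Z hZ RB hB O hO s)
      rw [Finset.filter_image, Finset.card_image_of_injective _ hinj]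
      congr 1
      apply Finset.filter_congr
      intro o _
      have : ((sw o).1, (sw o).2 + s) = sw (o.1 + s, o.2) := by simp [hsw]
      rw [this, Finset.mem_image]
      constructor
      · intro h hh
        exact h ⟨_, hh, rfl⟩
      · rintro h ⟨e, he, hee⟩
        exact h (hinj hee ▸ he))
    refine le_trans (le_of_eq ?_) h3
    rw [Finset.filter_image, Finset.card_image_of_injective _ hinj]
    congr 1
    apply Finset.filter_congr
    intro o _
    rw [Finset.filter_image, Finset.card_image_of_injective _ hinj]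
    rfl
  set HA := univ.filter fun i : Fin m => m < 2 * (RA.filter fun e => e.1 = i).card with hHA
  set HB := univ.filter fun j : Fin m => m < 2 * (RB.filter fun e => e.2 = j).card with hHB
  have h4 : HA.card * m ≤ 2 * RA.card := count_heavy RA
  have h5 : HB.card * m ≤ 2 * RB.card := by
    have h6 := count_heavy (RB.image sw)
    rw [Finset.card_image_of_injective _ hinj] at h6
    refine le_trans (le_of_eq ?_) h6
    congr 2
    rw [hHB]
    apply Finset.filter_congr
    intro j _
    rw [Finset.filter_image, Finset.card_image_of_injective _ hinj]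
    rfl
  have h7 : O ⊆ (O.filter fun o => 2 * (RA.filter fun e => e.1 = o.1).card ≤ m) ∪
      (O.filter fun o => 2 * (RB.filter fun e => e.2 = o.2).card ≤ m) ∪ HA ×ˢ HB := by
    intro o ho
    rw [mem_union, mem_union, mem_filter, mem_filter, mem_product, hHA, hHB, mem_filter,
      mem_filter]
    by_cases e1 : 2 * (RA.filter fun e => e.1 = o.1).card ≤ m
    · exact Or.inl (Or.inl ⟨ho, e1⟩)
    · by_cases e2 : 2 * (RB.filter fun e => e.2 = o.2).card ≤ m
      · exact Or.inl (Or.inr ⟨ho, e2⟩)
      · exact Or.inr ⟨⟨mem_univ _, not_le.1 e1⟩, ⟨mem_univ _, not_le.1 e2⟩⟩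
  have h8 : O.card ≤ 2 * Z.card + 2 * Z.card + HA.card * HB.card := by
    refine (card_le_card h7).trans ((card_union_le _ _).trans ?_)
    rw [card_product]
    exact Nat.add_le_add_right ((card_union_le _ _).trans (Nat.add_le_add h1 h2)) _
  have h9 : (HA.card * m) * (HB.card * m) ≤ (2 * RA.card) * (2 * RB.card) :=
    Nat.mul_le_mul h4 h5
  calc m ^ 2 * O.card ≤ m ^ 2 * (2 * Z.card + 2 * Z.card + HA.card * HB.card) :=
        Nat.mul_le_mul_left _ h8
    _ = 4 * m ^ 2 * Z.card + (HA.card * m) * (HB.card * m) := by ring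
    _ ≤ 4 * m ^ 2 * Z.card + (2 * RA.card) * (2 * RB.card) := Nat.add_le_add_left h9 _
    _ = _ := by ring

end

end Pool.Agent.H694R3.MMT
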