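import Mathlib

/-!
# Algebraic circuits for matrix multiplication whose gate graph has small treewidth: definitions
-/

open Finset

namespace Pool.Agent.H694R3.MMT

/-- the variables: the entries `a_{ik}` (left summand) and `b_{kj}` (right summand) of two
`m × m` matrices -/
abbrev Vars (m : ℕ) : Type := (Fin m × Fin m) ⊕ (Fin m × Fin m)

/-- the entry `c_{ij} = ∑ k, a_{ik} b_{kj}` of the product of two generic `m × m` matrices -/
noncomputable def entry (F : Type*) [Field F] (m : ℕ) (i j : Fin m) : MvPolynomial (Vars m) F :=
  ∑ k : Fin m, MvPolynomial.X (Sum.inl (i, k)) * MvPolynomial.X (Sum.inr (k, j))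

/-- An algebraic circuit over `F` in the variables `σ` with arbitrary polynomial gates of
unbounded fan-in: `size` gates; `reads g` is the set of variables read by the gate `g`, `feeds g`
the set of gates feeding `g` (they have smaller numbers), and the polynomial `val g` computed at
`g` is a polynomial, with coefficients in `F`, in the variables read by `g` and the values of the
gates feeding `g`. -/
structure Circ (F : Type*) [Field F] (σ : Type) where
  size : ℕ
  reads : Fin size → Finset σ
  feeds : Fin size → Finset (Fin size)
  val : Fin size → MvPolynomial σ F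
  acyclic : ∀ g, ∀ h ∈ feeds g, h < g
  sound : ∀ g, val g ∈ Algebra.adjoin F
    (MvPolynomial.X '' (reads g : Set σ) ∪ val '' (feeds g : Set (Fin size)))

/-- the number of wires leaving the variables: the number of pairs of a gate and a variable read
by it -/
def Circ.wires {F : Type*} [Field F] {σ : Type} (C : Circ F σ) : ℕ := ∑ g, (C.reads g).card

/-- the gate graph (the variables are not vertices): one of the two gates feeds the other -/
def Circ.adj {F : Type*} [Field F] {σ : Type} (C : Circ F σ) (g h : Fin C.size) : Prop :=
  h ∈ C.feeds g ∨ g ∈ C.feeds h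

/-- the circuit computes the product of two generic `m × m` matrices -/
def Circ.ComputesProduct {F : Type*} [Field F] {m : ℕ} (C : Circ F (Vars m)) : Prop :=
  ∀ i j : Fin m, ∃ g, C.val g = entry F m i j

/-- The graph with adjacency relation `adj` has a tree decomposition of width at most `t`. The
tree is rooted at node `0` and given by the parent function `par`, where `par i < i`; the nodes
whose bags contain a given vertex form a nonempty subtree, i.e. exactly one of them is the root
or has a parent whose bag does not contain the vertex. -/
def HasTreeDec {V : Type} (adj : V → V → Prop) (t : ℕ) : Prop :=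
  ∃ (T : ℕ) (par : Fin (T + 1) → Fin (T + 1)) (bag : Fin (T + 1) → Finset V),
    (∀ i, 0 < i → par i < i) ∧ (∀ i, (bag i).card ≤ t + 1) ∧
    (∀ v, ∃! i, v ∈ bag i ∧ (i = 0 ∨ v ∉ bag (par i))) ∧
    (∀ u v, adj u v → ∃ i, u ∈ bag i ∧ v ∈ bag i)

/-- the gate `g` copies a variable: it reads one variable, and this is its value -/
def Circ.IsCopy {F : Type*} [Field F] {σ : Type} (C : Circ F σ) (g : Fin C.size) : Prop :=
  ∃ x : σ, C.reads g = {x} ∧ C.feeds g = ∅ ∧ C.val g = MvPolynomial.X x

/-- the gate `g` is a product or a multiply-and-add gate: it reads no variable, and its value is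
`val u * val v` or `val w + val u * val v`, where `u`, `v` (and `w`) are the gates feeding it -/
def Circ.IsMulAdd {F : Type*} [Field F] {σ : Type} (C : Circ F σ) (g : Fin C.size) : Prop :=
  C.reads g = ∅ ∧ ((∃ u v, C.feeds g = {u, v} ∧ C.val g = C.val u * C.val v) ∨
    ∃ w u v, C.feeds g = {w, u, v} ∧ C.val g = C.val w + C.val u * C.val v)

end Pool.Agent.H694R3.MMT
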