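import Pool.Agent.H694R3.MMT.Tree

/-! # Pieces of small weight and few boundary vertices -/

open Finset
open Pool.Agent.H694R3.MMT.Tree

namespace Pool.Agent.H694R3.MMT

section

variable {T : ℕ} (par : Fin (T + 1) → Fin (T + 1)) (r : ℕ) (μt : Fin (T + 1) → ℕ)

/-- the children of a node which are not cut -/
def kids (x : Fin (T + 1)) : Finset (Fin (T + 1)) :=
  univ.filter fun c => x < c ∧ par c = x ∧ ¬ cut par r μt c

/-- the label of a component, given by its highest node -/
def labK (K : Fin (T + 1)) : Option (Fin (T + 1)) × ℕ :=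
  if K = 0 then (none, 0)
  else (some (par K), (∑ c ∈ (kids par r μt (par K)).filter (fun c => c < K), wt par r μt c) / r)

/-- the labels -/
def labels : Finset (Option (Fin (T + 1)) × ℕ) :=
  insert (none, 0) ((univ.filter fun x => cut par r μt x).biUnion fun x =>
    (range (wt par r μt x / r + 1)).image fun q => (some x, q))

variable {par} {r} {μt}

lemma labK_mem (K : Fin (T + 1))
    (hK2 : K = 0 ∨ cut par r μt (par K)) : labK par r μt K ∈ labels par r μt := by
  unfold labK labels
  split_ifs with h
  · exact mem_insert_self _ _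
  · rw [mem_insert, mem_biUnion]
    right
    have hc := hK2.resolve_left h
    refine ⟨par K, mem_filter.2 ⟨mem_univ _, hc⟩, mem_image.2 ⟨_, ?_, rfl⟩⟩
    rw [mem_range, Nat.lt_succ_iff]
    apply Nat.div_le_div_right
    apply children_weight
    intro c hc
    rw [mem_filter, kids, mem_filter] at hc
    exact hc.1.2

lemma card_labels : r * (labels par r μt).card ≤ r + 2 * ∑ i, μt i := by
  classical
  have h1 : (labels par r μt).card ≤
      1 + ∑ x ∈ univ.filter (fun x => cut par r μt x), (wt par r μt x / r + 1) := by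
    unfold labels
    refine (card_insert_le _ _).trans ?_
    rw [add_comm]
    apply Nat.add_le_add_left
    refine card_biUnion_le.trans (Finset.sum_le_sum fun x _ => ?_)
    refine card_image_le.trans ?_
    rw [card_range]
  have h2 := cut_weight (par := par) (r := r) (μt := μt)
  calc r * (labels par r μt).card ≤
      r * (1 + ∑ x ∈ univ.filter (fun x => cut par r μt x), (wt par r μt x / r + 1)) :=
        Nat.mul_le_mul_left _ h1
    _ = r + ∑ x ∈ univ.filter (fun x => cut par r μt x), (r * (wt par r μt x / r) + r) := by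
        rw [mul_add, mul_one, Finset.mul_sum]
        congr 1
    _ ≤ r + ∑ x ∈ univ.filter (fun x => cut par r μt x), 2 * wt par r μt x := by
        apply Nat.add_le_add_left
        apply Finset.sum_le_sum
        intro x hx
        have h3 : r < wt par r μt x := (mem_filter.1 hx).2
        have h4 := Nat.mul_div_le (wt par r μt x) r
        omega
    _ = r + 2 * ∑ x ∈ univ.filter (fun x => cut par r μt x), wt par r μt x := by
        rw [Finset.mul_sum]
    _ ≤ _ := by omega

lemma card_cut : r * (univ.filter fun x => cut par r μt x).card ≤ ∑ i, μt i := by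
  classical
  have h2 := cut_weight (par := par) (r := r) (μt := μt)
  refine le_trans ?_ h2
  rw [mul_comm]
  calc _ = ∑ _x ∈ univ.filter (fun x => cut par r μt x), r := by simp
    _ ≤ _ := by
        apply Finset.sum_le_sum
        intro x hx
        exact (mem_filter.1 hx).2.le

/-- the weight of a piece -/
lemma label_weight (hpar : ∀ i, 0 < i → par i < i) (hr : 0 < r)
    (ℓ : Option (Fin (T + 1)) × ℕ) :
    ∑ i ∈ univ.filter (fun i => ¬ cut par r μt i ∧ labK par r μt (comp par r μt i) = ℓ), μt i ≤
      2 * r := by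
  classical
  set 𝒦 := univ.filter (fun K => ¬ cut par r μt K ∧ (K = 0 ∨ cut par r μt (par K)) ∧
    labK par r μt K = ℓ) with h𝒦
  have h1 : ∑ i ∈ univ.filter (fun i => ¬ cut par r μt i ∧
      labK par r μt (comp par r μt i) = ℓ), μt i = ∑ K ∈ 𝒦, wt par r μt K := by
    rw [← Finset.sum_fiberwise_of_maps_to (g := fun i => comp par r μt i) (t := 𝒦)]
    · apply Finset.sum_congr rfl
      intro K hK
      rw [h𝒦, mem_filter] at hK
      rw [← comp_weight hpar K hK.2.1 hK.2.2.1]
      apply Finset.sum_congr _ fun _ _ => rfl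
      ext i
      simp only [mem_filter, mem_univ, true_and]
      constructor
      · rintro ⟨⟨h1, h2⟩, h3⟩
        exact ⟨h1, h3⟩
      · rintro ⟨h1, h3⟩
        exact ⟨⟨h1, by rw [h3]; exact hK.2.2.2⟩, h3⟩
    · intro i hi
      rw [mem_filter] at hi
      rw [h𝒦, mem_filter]
      have := comp_spec hpar i hi.2.1
      exact ⟨mem_univ _, this.1, this.2, hi.2.2⟩
  rw [h1]
  obtain ⟨ox, q⟩ := ℓ
  rcases ox with _ | x
  · have h2 : 𝒦 ⊆ {0} := by
      intro K hK
      rw [h𝒦, mem_filter] at hK
      rw [mem_singleton]
      by_contra h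
      have h3 := hK.2.2.2
      unfold labK at h3
      rw [if_neg h] at h3
      exact absurd (congrArg Prod.fst h3) (by simp)
    calc _ ≤ ∑ K ∈ 𝒦, r := by
          apply Finset.sum_le_sum
          intro K hK
          rw [h𝒦, mem_filter] at hK
          exact not_lt.1 hK.2.1
      _ ≤ ∑ K ∈ ({0} : Finset (Fin (T + 1))), r := Finset.sum_le_sum_of_subset h2
      _ = r := by simp
      _ ≤ _ := by omega
  · have h2 : 𝒦 ⊆ (kids par r μt x).filter (fun K =>
        (∑ c ∈ (kids par r μt x).filter (fun c => c < K), wt par r μt c) / r = q) := by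
      intro K hK
      rw [h𝒦, mem_filter] at hK
      have h3 := hK.2.2.2
      unfold labK at h3
      by_cases h : K = 0
      · rw [if_pos h] at h3
        exact absurd (congrArg Prod.fst h3) (by simp)
      · rw [if_neg h] at h3
        have e1 : par K = x := by
          have := congrArg Prod.fst h3
          simpa using this
        have e2 := congrArg Prod.snd h3
        simp only at e2
        rw [e1] at e2
        rw [mem_filter]
        refine ⟨?_, e2⟩
        rw [kids, mem_filter]
        exact ⟨mem_univ _, e1 ▸ hpar K (Fin.pos_of_ne_zero h), e1, hK.2.1⟩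
    refine (Finset.sum_le_sum_of_subset h2).trans ?_
    apply fiber_weight _ _ _ hr
    intro c hc
    rw [kids, mem_filter] at hc
    exact not_lt.1 hc.2.2.2

end

/-- Cutting a graph with a tree decomposition: after the deletion of few vertices, the others are
labelled such that adjacent vertices have the same label, vertices with the same label have a
total weight at most `2 r`, and they are adjacent to few of the deleted vertices, on average. -/
theorem pieces {V : Type} [Fintype V] [DecidableEq V] (adj : V → V → Prop) (t : ℕ)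
    (h : HasTreeDec adj t) (μ : V → ℕ) (r : ℕ) (hr : 0 < r) :
    ∃ (Λ : Type) (_ : DecidableEq Λ) (B : Finset V) (lab : V → Λ) (L : Finset Λ)
      (N : Λ → Finset V),
      (∀ v, v ∉ B → lab v ∈ L) ∧
      (∀ u v, u ∉ B → v ∉ B → adj u v → lab u = lab v) ∧
      (∀ u v, v ∉ B → u ∈ B → adj u v → u ∈ N (lab v)) ∧
      (∀ ℓ, ∑ v ∈ univ.filter (fun v => v ∉ B ∧ lab v = ℓ), μ v ≤ 2 * r) ∧
      r * B.card ≤ (t + 1) * ∑ v, μ v ∧
      r * ∑ ℓ ∈ L, (N ℓ).card ≤ (t + 1) * (r + 3 * ∑ v, μ v) := by
  classical
  obtain ⟨T, par, bag, hpar, hcard, huniq, hadj⟩ := h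
  choose top htop huniq' using huniq
  have htop' : ∀ v j, v ∈ bag j → j ≠ top v → j ≠ 0 ∧ v ∈ bag (par j) := by
    intro v j hj hne
    by_contra hcon
    apply hne
    apply huniq' v j
    refine ⟨hj, ?_⟩
    by_cases h0 : j = 0
    · exact Or.inl h0
    · right
      intro h1
      exact hcon ⟨h0, h1⟩
  set μt : Fin (T + 1) → ℕ := fun i => ∑ v ∈ univ.filter (fun v => top v = i), μ v with hμt
  have hW : ∑ i, μt i = ∑ v, μ v := by
    simp only [hμt]
    rw [Finset.sum_fiberwise_of_maps_to (fun v _ => mem_univ (top v))]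
  set X := univ.filter (fun x => cut par r μt x) with hX
  have hmX : ∀ x, x ∈ X ↔ cut par r μt x := fun x => by rw [hX, mem_filter]; simp
  set B := X.biUnion bag with hB
  have hmB : ∀ v, v ∈ B ↔ ∃ x, cut par r μt x ∧ v ∈ bag x := fun v => by
    rw [hB, mem_biUnion]
    simp only [hmX]
  let up : Option (Fin (T + 1)) → Finset V := fun o => match o with
    | none => ∅
    | some x => bag x
  have hup : ∀ o, (up o).card ≤ t + 1 := by
    intro o
    cases o with
    | none => simp [up]
    | some x => exact hcard x
  let low : Option (Fin (T + 1)) × ℕ → Finset (Fin (T + 1)) := fun ℓ =>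
    X.filter fun y => y ≠ 0 ∧ ¬ cut par r μt (par y) ∧
      labK par r μt (comp par r μt (par y)) = ℓ
  -- the three facts about bags
  have fact0 : ∀ v, v ∉ B → ∀ j, v ∈ bag j →
      ¬ cut par r μt j ∧ comp par r μt j = comp par r μt (top v) := by
    intro v hv j
    induction j using WellFoundedLT.induction with
    | _ j ih =>
      intro hj
      have hjc : ¬ cut par r μt j := fun hc => hv ((hmB v).2 ⟨j, hc, hj⟩)
      refine ⟨hjc, ?_⟩
      by_cases hjt : j = top v
      · rw [hjt]
      · obtain ⟨h0, h1⟩ := htop' v j hj hjt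
        obtain ⟨h2, h3⟩ := ih (par j) (hpar j (Fin.pos_of_ne_zero h0)) h1
        rw [comp_step hpar h0 h2, h3]
  have fact1 : ∀ u, ¬ cut par r μt (top u) → ∀ z, u ∈ bag z →
      (¬ cut par r μt z ∧ comp par r μt z = comp par r μt (top u)) ∨
      ∃ y, y ≠ 0 ∧ cut par r μt y ∧ ¬ cut par r μt (par y) ∧
        comp par r μt (par y) = comp par r μt (top u) ∧ u ∈ bag y := by
    intro u hu z
    induction z using WellFoundedLT.induction with
    | _ z ih =>
      intro hz
      by_cases hzt : z = top u
      · left
        rw [hzt]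
        exact ⟨hu, rfl⟩
      · obtain ⟨h0, h1⟩ := htop' u z hz hzt
        rcases ih (par z) (hpar z (Fin.pos_of_ne_zero h0)) h1 with ⟨h2, h3⟩ | h2
        · by_cases hzc : cut par r μt z
          · right
            exact ⟨z, h0, hzc, h2, h3, hz⟩
          · left
            refine ⟨hzc, ?_⟩
            rw [comp_step hpar h0 h2, h3]
        · exact Or.inr h2
  have fact2 : ∀ u z, ¬ cut par r μt z → u ∈ bag z →
      (¬ cut par r μt (top u) ∧ comp par r μt z = comp par r μt (top u)) ∨
      (comp par r μt z ≠ 0 ∧ u ∈ bag (par (comp par r μt z))) := by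
    intro u z
    induction z using WellFoundedLT.induction with
    | _ z ih =>
      intro hzc hz
      by_cases hzt : z = top u
      · left
        rw [← hzt]
        exact ⟨hzc, rfl⟩
      · obtain ⟨h0, h1⟩ := htop' u z hz hzt
        by_cases hpc : cut par r μt (par z)
        · right
          rw [comp_root (Or.inr hpc)]
          exact ⟨h0, h1⟩
        · rw [comp_step hpar h0 hpc]
          exact ih (par z) (hpar z (Fin.pos_of_ne_zero h0)) hpc h1
  refine ⟨Option (Fin (T + 1)) × ℕ, inferInstance, B,
    fun v => labK par r μt (comp par r μt (top v)), labels par r μt,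
    fun ℓ => up ℓ.1 ∪ (low ℓ).biUnion bag, ?_, ?_, ?_, ?_, ?_, ?_⟩
  · intro v hv
    have h1 := (fact0 v hv (top v) (htop v).1).1
    exact labK_mem _ (comp_spec hpar _ h1).2
  · intro u v hu hv huv
    obtain ⟨j, hj1, hj2⟩ := hadj u v huv
    simp only
    rw [← (fact0 u hu j hj1).2, ← (fact0 v hv j hj2).2]
  · intro u v hv hu huv
    obtain ⟨j, hj1, hj2⟩ := hadj u v huv
    obtain ⟨hjc, hjv⟩ := fact0 v hv j hj2
    rw [mem_union, mem_biUnion]
    rcases fact2 u j hjc hj1 with ⟨h1, h2⟩ | ⟨h1, h2⟩
    · right
      obtain ⟨x, hx, hux⟩ := (hmB u).1 hu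
      rcases fact1 u h1 x hux with ⟨h3, -⟩ | ⟨y, hy0, hyc, hyp, hye, hyu⟩
      · exact absurd hx h3
      · refine ⟨y, ?_, hyu⟩
        simp only [low]
        rw [mem_filter, hmX]
        exact ⟨hyc, hy0, hyp, by rw [hye, ← h2, hjv]⟩
    · left
      rw [hjv] at h1 h2
      simp only [labK, if_neg h1, up]
      exact h2
  · intro ℓ
    refine le_trans ?_ (label_weight hpar hr ℓ (μt := μt))
    have h1 : ∑ i ∈ univ.filter (fun i => ¬ cut par r μt i ∧
        labK par r μt (comp par r μt i) = ℓ), μt i =
        ∑ v ∈ univ.filter (fun v => ¬ cut par r μt (top v) ∧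
          labK par r μt (comp par r μt (top v)) = ℓ), μ v := by
      rw [← Finset.sum_fiberwise_of_maps_to (g := top) (t := univ.filter (fun i =>
        ¬ cut par r μt i ∧ labK par r μt (comp par r μt i) = ℓ))]
      · apply Finset.sum_congr rfl
        intro i hi
        rw [mem_filter] at hi
        simp only [hμt]
        apply Finset.sum_congr _ fun _ _ => rfl
        ext v
        simp only [mem_filter, mem_univ, true_and]
        constructor
        · intro h
          rw [h]
          exact ⟨hi.2, rfl⟩
        · rintro ⟨-, h⟩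
          exact h
      · intro v hv
        rw [mem_filter] at hv ⊢
        exact ⟨mem_univ _, hv.2⟩
    rw [h1]
    apply Finset.sum_le_sum_of_subset
    intro v hv
    rw [mem_filter] at hv ⊢
    exact ⟨mem_univ _, (fact0 v hv.2.1 (top v) (htop v).1).1, hv.2.2⟩
  · have h1 : B.card ≤ X.card * (t + 1) := by
      refine card_biUnion_le.trans ?_
      calc _ ≤ ∑ _x ∈ X, (t + 1) := Finset.sum_le_sum fun x _ => hcard x
        _ = _ := by rw [Finset.sum_const, smul_eq_mul]
    have h2 := card_cut (par := par) (r := r) (μt := μt)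
    rw [hW, ← hX] at h2
    calc r * B.card ≤ r * (X.card * (t + 1)) := Nat.mul_le_mul_left _ h1
      _ = (t + 1) * (r * X.card) := by ring
      _ ≤ _ := Nat.mul_le_mul_left _ h2
  · have h2 := card_cut (par := par) (r := r) (μt := μt)
    rw [hW, ← hX] at h2
    have h3 := card_labels (par := par) (r := r) (μt := μt)
    rw [hW] at h3
    have h4 : ∑ ℓ ∈ labels par r μt, (low ℓ).card ≤ X.card := by
      simp only [low]
      have h5 : ∀ ℓ, (X.filter fun y => y ≠ 0 ∧ ¬ cut par r μt (par y) ∧
          labK par r μt (comp par r μt (par y)) = ℓ).card ≤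
          (X.filter fun y => labK par r μt (comp par r μt (par y)) = ℓ).card := by
        intro ℓ
        apply card_le_card
        intro y hy
        rw [mem_filter] at hy ⊢
        exact ⟨hy.1, hy.2.2.2⟩
      refine (Finset.sum_le_sum fun ℓ _ => h5 ℓ).trans ?_
      simp only [card_filter]
      rw [Finset.sum_comm, Finset.card_eq_sum_ones]
      apply Finset.sum_le_sum
      intro y _
      rw [Finset.sum_ite_eq]
      split_ifs <;> simp
    have h5 : ∑ ℓ ∈ labels par r μt, (up ℓ.1 ∪ (low ℓ).biUnion bag).card ≤
        (t + 1) * ((labels par r μt).card + X.card) := by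
      calc _ ≤ ∑ ℓ ∈ labels par r μt, ((t + 1) + (low ℓ).card * (t + 1)) := by
            apply Finset.sum_le_sum
            intro ℓ _
            refine (card_union_le _ _).trans (Nat.add_le_add (hup _) ?_)
            refine card_biUnion_le.trans ?_
            calc _ ≤ ∑ _x ∈ low ℓ, (t + 1) := Finset.sum_le_sum fun x _ => hcard x
              _ = _ := by rw [Finset.sum_const, smul_eq_mul]
        _ = (t + 1) * ((labels par r μt).card + ∑ ℓ ∈ labels par r μt, (low ℓ).card) := by
            rw [Finset.sum_add_distrib, ← Finset.sum_mul, Finset.sum_const, smul_eq_mul]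
            ring
        _ ≤ _ := Nat.mul_le_mul_left _ (Nat.add_le_add_left h4 _)
    calc _ ≤ r * ((t + 1) * ((labels par r μt).card + X.card)) := Nat.mul_le_mul_left _ h5
      _ = (t + 1) * (r * (labels par r μt).card + r * X.card) := by ring
      _ ≤ _ := Nat.mul_le_mul_left _ (by omega)

end Pool.Agent.H694R3.MMT
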