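import Pool.Agent.H694R3.MMT.Block
import Pool.Agent.H694R3.MMT.Pieces

/-! # The lower bound -/

open Finset MvPolynomial

namespace Pool.Agent.H694R3.MMT

variable {F : Type*} [Field F] {m : ℕ}

lemma entry_inj [NeZero m] {i j i' j' : Fin m} (h : entry F m i j = entry F m i' j') :
    i = i' ∧ j = j' := by
  classical
  let p : Vars m → F := fun x => match x with
    | Sum.inl e => if e = (i, 0) then 1 else 0
    | Sum.inr e => if e = (0, j) then 1 else 0
  have h1 : ∀ a b : Fin m, MvPolynomial.eval p (entry F m a b) = if a = i ∧ b = j then 1 else 0 := by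
    intro a b
    unfold entry
    rw [map_sum, Finset.sum_eq_single (0 : Fin m)]
    · rw [map_mul, eval_X, eval_X]
      simp only [p, Prod.mk.injEq]
      by_cases ha : a = i <;> by_cases hb : b = j <;> simp [ha, hb]
    · intro k _ hk
      rw [map_mul, eval_X, eval_X]
      simp only [p, Prod.mk.injEq]
      simp [hk]
    · intro h
      exact absurd (mem_univ _) h
  have h2 := congrArg (MvPolynomial.eval p) h
  rw [h1, h1, if_pos ⟨rfl, rfl⟩] at h2
  by_contra hcon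
  rw [if_neg] at h2
  · exact one_ne_zero h2
  · rintro ⟨e1, e2⟩
    exact hcon ⟨e1.symm, e2.symm⟩

/-- the entries of the two matrices read by the gates in `P` -/
lemma reads_split (C : Circ F (Vars m)) (P : Finset (Fin C.size)) :
    ∃ RA RB : Finset (Fin m × Fin m),
      (∀ g ∈ P, ∀ e, Sum.inl e ∈ C.reads g → e ∈ RA) ∧
      (∀ g ∈ P, ∀ e, Sum.inr e ∈ C.reads g → e ∈ RB) ∧
      RA.card + RB.card ≤ ∑ g ∈ P, (C.reads g).card := by
  classical
  refine ⟨(P.biUnion C.reads).toLeft, (P.biUnion C.reads).toRight, ?_, ?_, ?_⟩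
  · intro g hg e he
    rw [Finset.mem_toLeft, mem_biUnion]
    exact ⟨g, hg, he⟩
  · intro g hg e he
    rw [Finset.mem_toRight, mem_biUnion]
    exact ⟨g, hg, he⟩
  · rw [Finset.card_toLeft_add_card_toRight]
    exact card_biUnion_le

lemma four_mul_le (a b ρ : ℕ) (h : a + b ≤ ρ) : 4 * (a * b) ≤ ρ * ρ := by
  have h1 : (a + b) * (a + b) ≤ ρ * ρ := Nat.mul_le_mul h h
  zify at *
  nlinarith [sq_nonneg ((a : ℤ) - b)]

/-- every circuit reads at least `m ^ 2` entries -/
lemma wires_ge [NeZero m] (C : Circ F (Vars m)) (hC : C.ComputesProduct) : m ^ 2 ≤ C.wires := by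
  classical
  obtain ⟨RA, RB, hA, hB, hRR⟩ := reads_split C univ
  have h := block C univ ∅ (fun g _ h _ => Or.inl (mem_univ _)) RA RB hA hB univ
    (fun o _ => by
      obtain ⟨g, hg⟩ := hC o.1 o.2
      exact ⟨g, mem_univ _, hg⟩)
  have h2 := four_mul_le _ _ _ hRR
  rw [card_empty, mul_zero, zero_add, card_univ, Fintype.card_prod, Fintype.card_fin] at h
  have h3 : (m ^ 2) * (m ^ 2) ≤ C.wires * C.wires := by
    unfold Circ.wires
    calc (m ^ 2) * (m ^ 2) = m ^ 2 * (m * m) := by ring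
      _ ≤ _ := h.trans h2
  exact Nat.mul_self_le_mul_self_iff.1 h3

lemma main_ineq [NeZero m] (C : Circ F (Vars m)) (hC : C.ComputesProduct) (t : ℕ)
    (hT : HasTreeDec C.adj t) (r : ℕ) (hr : 0 < r) :
    r * m ^ 4 ≤ m ^ 2 * ((t + 1) * C.wires) + 4 * m ^ 2 * ((t + 1) * (r + 3 * C.wires)) +
      r * (2 * r * C.wires) := by
  classical
  obtain ⟨Λ, _, B, lab, L, N, h1, h2, h3, h4, h5, h6⟩ :=
    pieces C.adj t hT (fun g => (C.reads g).card) r hr
  choose gt hgt using hC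
  have hW : ∑ v, (C.reads v).card = C.wires := rfl
  rw [hW] at h5 h6
  -- the outputs
  let O : Λ → Finset (Fin m × Fin m) := fun ℓ =>
    univ.filter fun o => gt o.1 o.2 ∉ B ∧ lab (gt o.1 o.2) = ℓ
  let OB : Finset (Fin m × Fin m) := univ.filter fun o => gt o.1 o.2 ∈ B
  have hOB : OB.card ≤ B.card := by
    apply card_le_card_of_injOn (fun o => gt o.1 o.2)
    · intro o ho
      exact (mem_filter.1 ho).2
    · intro o _ o' _ hoo
      simp only at hoo
      have e := hgt o.1 o.2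
      rw [hoo, hgt o'.1 o'.2] at e
      obtain ⟨e1, e2⟩ := entry_inj e
      exact Prod.ext e1.symm e2.symm
  have hcov : (univ : Finset (Fin m × Fin m)) ⊆ OB ∪ L.biUnion O := by
    intro o _
    rw [mem_union, mem_biUnion]
    by_cases h : gt o.1 o.2 ∈ B
    · exact Or.inl (mem_filter.2 ⟨mem_univ _, h⟩)
    · exact Or.inr ⟨_, h1 _ h, mem_filter.2 ⟨mem_univ _, h, rfl⟩⟩
  have hcard : m * m ≤ B.card + ∑ ℓ ∈ L, (O ℓ).card := by
    have := card_le_card hcov
    rw [card_univ, Fintype.card_prod, Fintype.card_fin] at this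
    refine this.trans ((card_union_le _ _).trans (Nat.add_le_add hOB card_biUnion_le))
  -- each block
  let ρ : Λ → ℕ := fun ℓ => ∑ v ∈ univ.filter (fun v => v ∉ B ∧ lab v = ℓ), (C.reads v).card
  have hblock : ∀ ℓ, m ^ 2 * (O ℓ).card ≤ 4 * m ^ 2 * (N ℓ).card + 2 * r * ρ ℓ := by
    intro ℓ
    obtain ⟨RA, RB, hA, hB, hRR⟩ := reads_split C (univ.filter fun v => v ∉ B ∧ lab v = ℓ)
    have e := block C (univ.filter fun v => v ∉ B ∧ lab v = ℓ) (N ℓ) (by
      intro g hg h hh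
      rw [mem_filter] at hg
      by_cases hB : h ∈ B
      · right
        have := h3 h g hg.2.1 hB (Or.inr hh)
        rwa [hg.2.2] at this
      · left
        rw [mem_filter]
        refine ⟨mem_univ _, hB, ?_⟩
        rw [h2 h g hB hg.2.1 (Or.inr hh)]
        exact hg.2.2) RA RB hA hB (O ℓ) (by
      intro o ho
      have ho' := (mem_filter.1 ho).2
      exact ⟨gt o.1 o.2, mem_filter.2 ⟨mem_univ _, ho'⟩, hgt o.1 o.2⟩)
    have e2 := four_mul_le _ _ _ hRR
    have e3 : ρ ℓ * ρ ℓ ≤ 2 * r * ρ ℓ := Nat.mul_le_mul_right _ (h4 ℓ)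
    exact e.trans (Nat.add_le_add_left (e2.trans e3) _)
  have hρ : ∑ ℓ ∈ L, ρ ℓ ≤ C.wires := by
    have e1 : ∑ ℓ ∈ L, ρ ℓ = ∑ ℓ ∈ L, ∑ v, if v ∉ B ∧ lab v = ℓ then (C.reads v).card else 0 := by
      apply Finset.sum_congr rfl
      intro ℓ _
      simp only [ρ]
      rw [Finset.sum_filter]
    rw [e1, Finset.sum_comm]
    apply Finset.sum_le_sum
    intro v _
    by_cases hv : v ∉ B
    · calc _ ≤ ∑ ℓ ∈ L, if lab v = ℓ then (C.reads v).card else 0 := by
            apply Finset.sum_le_sum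
            intro ℓ _
            by_cases hl : lab v = ℓ
            · rw [if_pos ⟨hv, hl⟩, if_pos hl]
            · rw [if_neg (fun h => hl h.2)]
              exact Nat.zero_le _
        _ ≤ _ := by
            rw [Finset.sum_ite_eq]
            split_ifs <;> simp
    · rw [Finset.sum_eq_zero]
      · exact Nat.zero_le _
      · intro ℓ _
        rw [if_neg (fun h => hv h.1)]
  have hsum : m ^ 4 ≤ m ^ 2 * B.card + 4 * m ^ 2 * ∑ ℓ ∈ L, (N ℓ).card + 2 * r * C.wires := by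
    calc m ^ 4 = m ^ 2 * (m * m) := by ring
      _ ≤ m ^ 2 * (B.card + ∑ ℓ ∈ L, (O ℓ).card) := Nat.mul_le_mul_left _ hcard
      _ = m ^ 2 * B.card + ∑ ℓ ∈ L, m ^ 2 * (O ℓ).card := by rw [mul_add, Finset.mul_sum]
      _ ≤ m ^ 2 * B.card + ∑ ℓ ∈ L, (4 * m ^ 2 * (N ℓ).card + 2 * r * ρ ℓ) :=
          Nat.add_le_add_left (Finset.sum_le_sum fun ℓ _ => hblock ℓ) _
      _ = m ^ 2 * B.card + (4 * m ^ 2 * ∑ ℓ ∈ L, (N ℓ).card + 2 * r * ∑ ℓ ∈ L, ρ ℓ) := by
          rw [Finset.sum_add_distrib, ← Finset.mul_sum, ← Finset.mul_sum]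
      _ ≤ _ := by
          rw [add_assoc]
          exact Nat.add_le_add_left (Nat.add_le_add_left (Nat.mul_le_mul_left _ hρ) _) _
  calc r * m ^ 4 ≤ r * (m ^ 2 * B.card + 4 * m ^ 2 * ∑ ℓ ∈ L, (N ℓ).card + 2 * r * C.wires) :=
        Nat.mul_le_mul_left _ hsum
    _ = m ^ 2 * (r * B.card) + 4 * m ^ 2 * (r * ∑ ℓ ∈ L, (N ℓ).card) +
        r * (2 * r * C.wires) := by ring
    _ ≤ _ := by
        apply Nat.add_le_add_right
        exact Nat.add_le_add (Nat.mul_le_mul_left _ h5) (Nat.mul_le_mul_left _ h6)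

/-- the trade-off between treewidth and the number of wires leaving the entries -/
theorem lower (C : Circ F (Vars m)) (hC : C.ComputesProduct) (t : ℕ)
    (hT : HasTreeDec C.adj t) : m ^ 6 ≤ 882 * (t + 1) * C.wires ^ 2 := by
  rcases Nat.eq_zero_or_pos m with hm | hm
  · subst hm
    simp
  have : NeZero m := ⟨hm.ne'⟩
  set W := C.wires with hW
  set u := Nat.sqrt t + 1 with hu
  have hu0 : 0 < u := Nat.succ_pos _
  have hu1 : t + 1 ≤ u * u := Nat.succ_le_of_lt (Nat.lt_succ_sqrt t)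
  have hu2 : u * u ≤ 2 * (t + 1) := by
    have h1 := Nat.sqrt_le t
    have h2 : 2 * Nat.sqrt t ≤ Nat.sqrt t * Nat.sqrt t + 1 := by
      zify
      nlinarith [sq_nonneg ((Nat.sqrt t : ℤ) - 1)]
    have h3 : u * u = Nat.sqrt t * Nat.sqrt t + 2 * Nat.sqrt t + 1 := by rw [hu]; ring
    omega
  have h1 := main_ineq C hC t hT (2 * m * u) (by positivity)
  rw [← hW] at h1
  have h2 : m ^ 2 ≤ W := wires_ge C hC
  have h3 : 2 * m ^ 3 ≤ 21 * u * W + 8 * m * u ^ 2 := by
    have e1 : m ^ 2 * ((t + 1) * W) ≤ m ^ 2 * (u * u * W) :=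
      Nat.mul_le_mul_left _ (Nat.mul_le_mul_right _ hu1)
    have e2 : 4 * m ^ 2 * ((t + 1) * (2 * m * u + 3 * W)) ≤
        4 * m ^ 2 * (u * u * (2 * m * u + 3 * W)) :=
      Nat.mul_le_mul_left _ (Nat.mul_le_mul_right _ hu1)
    have e3 : (m ^ 2 * u) * (2 * m ^ 3) ≤ (m ^ 2 * u) * (21 * u * W + 8 * m * u ^ 2) := by
      calc (m ^ 2 * u) * (2 * m ^ 3) = 2 * m * u * m ^ 4 := by ring
        _ ≤ _ := h1
        _ ≤ m ^ 2 * (u * u * W) + 4 * m ^ 2 * (u * u * (2 * m * u + 3 * W)) +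
            2 * m * u * (2 * (2 * m * u) * W) :=
            Nat.add_le_add_right (Nat.add_le_add e1 e2) _
        _ = _ := by ring
    exact Nat.le_of_mul_le_mul_left e3 (by positivity)
  have h4 : m ^ 3 ≤ 21 * u * W := by
    rcases le_or_gt (8 * (u * u)) (m * m) with h | h
    · have e : 8 * m * u ^ 2 ≤ m ^ 3 := by
        calc 8 * m * u ^ 2 = m * (8 * (u * u)) := by ring
          _ ≤ m * (m * m) := Nat.mul_le_mul_left _ h
          _ = m ^ 3 := by ring
      omega
    · have e : m ≤ 3 * u := by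
        by_contra hcon
        push Not at hcon
        have : 3 * u * (3 * u) < m * m := Nat.mul_lt_mul'' hcon hcon
        have e5 : 3 * u * (3 * u) = 9 * (u * u) := by ring
        omega
      calc m ^ 3 = m * m ^ 2 := by ring
        _ ≤ (3 * u) * W := Nat.mul_le_mul e h2
        _ ≤ 21 * u * W := Nat.mul_le_mul_right _ (by omega)
  calc m ^ 6 = m ^ 3 * m ^ 3 := by ring
    _ ≤ (21 * u * W) * (21 * u * W) := Nat.mul_le_mul h4 h4
    _ = 441 * (u * u) * W ^ 2 := by ring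
    _ ≤ 441 * (2 * (t + 1)) * W ^ 2 :=
        Nat.mul_le_mul_right _ (Nat.mul_le_mul_left _ hu2)
    _ = _ := by ring

end Pool.Agent.H694R3.MMT
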