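import Pool.Agent.H694R3.MMT.Defs

/-! # Cutting a tree decomposition into pieces of small weight -/

open Finset

namespace Pool.Agent.H694R3.MMT.Tree

variable {T : ℕ} (par : Fin (T + 1) → Fin (T + 1)) (r : ℕ) (μt : Fin (T + 1) → ℕ)

/-- the weight of the part of the subtree below a node which is not cut off -/
def wt (i : Fin (T + 1)) : ℕ :=
  μt i + ∑ c : Fin (T + 1), if h : i < c ∧ par c = i then
    (if r < wt c then 0 else wt c) else 0
termination_by T - i.val
decreasing_by
  all_goals
    have h1 : i.val < c.val := h.1
    have := c.isLt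
    omega

/-- the cut nodes -/
def cut (i : Fin (T + 1)) : Prop := r < wt par r μt i

instance : DecidablePred (cut par r μt) := fun _ => by unfold cut; infer_instance

/-- the weight passed to the parent -/
def res (i : Fin (T + 1)) : ℕ := if cut par r μt i then 0 else wt par r μt i

lemma wt_eq (i : Fin (T + 1)) : wt par r μt i =
    μt i + ∑ c : Fin (T + 1), if i < c ∧ par c = i then res par r μt c else 0 := by
  rw [wt]
  congr 1

/-- the highest node of the component -/
def comp (i : Fin (T + 1)) : Fin (T + 1) :=
  if h : par i < i ∧ i ≠ 0 ∧ ¬ cut par r μt (par i) then comp (par i) else i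
termination_by i.val
decreasing_by exact h.1

variable {par} {r} {μt}

section

variable (hpar : ∀ i, 0 < i → par i < i)

include hpar

omit hpar in
lemma comp_root {i : Fin (T + 1)} (h : i = 0 ∨ cut par r μt (par i)) :
    comp par r μt i = i := by
  rw [comp, dif_neg]
  rintro ⟨-, h1, h2⟩
  rcases h with h | h
  · exact h1 h
  · exact h2 h

lemma comp_step {i : Fin (T + 1)} (h0 : i ≠ 0) (h : ¬ cut par r μt (par i)) :
    comp par r μt i = comp par r μt (par i) := by
  rw [comp, dif_pos ⟨hpar i (Fin.pos_of_ne_zero h0), h0, h⟩]

lemma comp_le (i : Fin (T + 1)) : comp par r μt i ≤ i := by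
  induction i using WellFoundedLT.induction with
  | _ i ih =>
    by_cases h : i = 0 ∨ cut par r μt (par i)
    · rw [comp_root h]
    · push Not at h
      rw [comp_step hpar h.1 h.2]
      have := hpar i (Fin.pos_of_ne_zero h.1)
      exact (ih _ this).trans this.le

lemma comp_spec (i : Fin (T + 1)) (hi : ¬ cut par r μt i) :
    ¬ cut par r μt (comp par r μt i) ∧
      (comp par r μt i = 0 ∨ cut par r μt (par (comp par r μt i))) := by
  induction i using WellFoundedLT.induction with
  | _ i ih =>
    by_cases h : i = 0 ∨ cut par r μt (par i)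
    · rw [comp_root h]
      exact ⟨hi, h⟩
    · push Not at h
      rw [comp_step hpar h.1 h.2]
      exact ih _ (hpar i (Fin.pos_of_ne_zero h.1)) h.2

/-- the total weight of a component -/
lemma comp_weight (K : Fin (T + 1)) (hK : ¬ cut par r μt K)
    (hK2 : K = 0 ∨ cut par r μt (par K)) :
    ∑ i ∈ univ.filter (fun i => ¬ cut par r μt i ∧ comp par r μt i = K), μt i =
      wt par r μt K := by
  classical
  set Co := univ.filter (fun i => ¬ cut par r μt i ∧ comp par r μt i = K) with hCo
  have hKC : K ∈ Co := by
    rw [hCo, mem_filter]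
    exact ⟨mem_univ _, hK, comp_root hK2⟩
  have h1 : ∑ i ∈ Co, wt par r μt i = ∑ i ∈ Co, μt i +
      ∑ i ∈ Co, ∑ c : Fin (T + 1), if i < c ∧ par c = i then res par r μt c else 0 := by
    rw [← Finset.sum_add_distrib]
    exact Finset.sum_congr rfl fun i _ => wt_eq par r μt i
  have h2 : ∑ i ∈ Co, ∑ c : Fin (T + 1), (if i < c ∧ par c = i then res par r μt c else 0) =
      ∑ c ∈ Co.erase K, wt par r μt c := by
    rw [Finset.sum_comm]
    have h3 : ∀ c : Fin (T + 1), ∑ i ∈ Co, (if i < c ∧ par c = i then res par r μt c else 0) =
        if c ∈ Co.erase K then wt par r μt c else 0 := by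
      intro c
      by_cases hc : c ∈ Co.erase K
      · rw [if_pos hc]
        rw [mem_erase, hCo, mem_filter] at hc
        have hc0 : c ≠ 0 := by
          intro h
          apply hc.1
          rw [← hc.2.2.2, comp_root (Or.inl h)]
        have hpc : ¬ cut par r μt (par c) := by
          intro h
          apply hc.1
          rw [← hc.2.2.2, comp_root (Or.inr h)]
        have hlt := hpar c (Fin.pos_of_ne_zero hc0)
        have hmem : par c ∈ Co := by
          rw [hCo, mem_filter]
          exact ⟨mem_univ _, hpc, by rw [← comp_step hpar hc0 hpc]; exact hc.2.2.2⟩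
        rw [Finset.sum_eq_single (par c)]
        · rw [if_pos ⟨hlt, rfl⟩, res, if_neg hc.2.2.1]
        · intro i _ hi
          rw [if_neg]
          rintro ⟨-, h⟩
          exact hi h.symm
        · intro h
          exact absurd hmem h
      · rw [if_neg hc]
        apply Finset.sum_eq_zero
        intro i hi
        by_cases h : i < c ∧ par c = i
        · rw [if_pos h, res]
          by_cases hcc : cut par r μt c
          · rw [if_pos hcc]
          · exfalso
            apply hc
            rw [hCo, mem_filter] at hi
            have hc0 : c ≠ 0 := by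
              rintro rfl
              exact absurd h.1 (not_lt.2 (Fin.zero_le _))
            have hpc : ¬ cut par r μt (par c) := by rw [h.2]; exact hi.2.1
            have e : comp par r μt c = K := by
              rw [comp_step hpar hc0 hpc, h.2]
              exact hi.2.2
            rw [mem_erase, hCo, mem_filter]
            refine ⟨?_, mem_univ _, hcc, e⟩
            rintro rfl
            have h5 := comp_le hpar (r := r) (μt := μt) (par c)
            rw [← comp_step hpar hc0 hpc, e] at h5
            exact absurd (lt_of_le_of_lt h5 (hpar c (Fin.pos_of_ne_zero hc0))) (lt_irrefl _)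
        · rw [if_neg h]
    rw [Finset.sum_congr rfl fun c _ => h3 c, Finset.sum_ite_mem, Finset.univ_inter]
  rw [h2] at h1
  have h4 := Finset.add_sum_erase Co (fun i => wt par r μt i) hKC
  omega

omit hpar in
/-- the children of a node which are not cut weigh at most as much as the node -/
lemma children_weight (x : Fin (T + 1)) (S : Finset (Fin (T + 1)))
    (hS : ∀ c ∈ S, x < c ∧ par c = x ∧ ¬ cut par r μt c) :
    ∑ c ∈ S, wt par r μt c ≤ wt par r μt x := by
  rw [wt_eq par r μt x]
  refine le_trans ?_ (Nat.le_add_left _ _)
  calc _ = ∑ c ∈ S, if x < c ∧ par c = x then res par r μt c else 0 := by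
        apply Finset.sum_congr rfl
        intro c hc
        obtain ⟨h1, h2, h3⟩ := hS c hc
        rw [if_pos ⟨h1, h2⟩, res, if_neg h3]
    _ ≤ _ := Finset.sum_le_sum_of_subset (subset_univ _)

omit hpar in
/-- the cut nodes together weigh at most as much as everything -/
lemma cut_weight : ∑ i ∈ univ.filter (fun i => cut par r μt i), wt par r μt i ≤ ∑ i, μt i := by
  classical
  have h1 : ∑ i, wt par r μt i = ∑ i, μt i +
      ∑ i, ∑ c : Fin (T + 1), if i < c ∧ par c = i then res par r μt c else 0 := by
    rw [← Finset.sum_add_distrib]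
    exact Finset.sum_congr rfl fun i _ => wt_eq par r μt i
  have h2 : ∑ i, ∑ c : Fin (T + 1), (if i < c ∧ par c = i then res par r μt c else 0) ≤
      ∑ c ∈ univ.filter (fun i => ¬ cut par r μt i), wt par r μt c := by
    rw [Finset.sum_comm]
    have h3 : ∀ c : Fin (T + 1), ∑ i, (if i < c ∧ par c = i then res par r μt c else 0) ≤
        if ¬ cut par r μt c then wt par r μt c else 0 := by
      intro c
      calc _ ≤ res par r μt c := by
            rw [Finset.sum_eq_single (par c)]
            · split_ifs <;> simp
            · intro i _ hi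
              rw [if_neg]
              rintro ⟨-, h⟩
              exact hi h.symm
            · intro h
              exact absurd (mem_univ _) h
        _ ≤ _ := by
            unfold res
            by_cases hc : cut par r μt c
            · rw [if_pos hc, if_neg (not_not.2 hc)]
            · rw [if_neg hc, if_pos hc]
    calc _ ≤ ∑ c, if ¬ cut par r μt c then wt par r μt c else 0 :=
          Finset.sum_le_sum fun c _ => h3 c
      _ = _ := by rw [Finset.sum_filter]
  have h4 := Finset.sum_filter_add_sum_filter_not (univ : Finset (Fin (T + 1)))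
    (fun i => cut par r μt i) (fun i => wt par r μt i)
  omega

end

/-- consecutive items: those that start in the same interval of length `r` weigh at most `2 r` -/
lemma fiber_weight (S : Finset (Fin (T + 1))) (w : Fin (T + 1) → ℕ) (r : ℕ) (hr : 0 < r)
    (hw : ∀ c ∈ S, w c ≤ r) (q : ℕ) :
    ∑ K ∈ S.filter (fun K => (∑ c ∈ S.filter (fun c => c < K), w c) / r = q), w K ≤ 2 * r := by
  classical
  set Q := S.filter (fun K => (∑ c ∈ S.filter (fun c => c < K), w c) / r = q) with hQ
  rcases Q.eq_empty_or_nonempty with h | h
  · rw [h]; simp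
  · set a := Q.min' h with ha
    set b := Q.max' h with hb
    have haQ : a ∈ Q := Q.min'_mem h
    have hbQ : b ∈ Q := Q.max'_mem h
    have h1 : ∑ K ∈ Q, w K = w b + ∑ K ∈ Q.erase b, w K := (Finset.add_sum_erase Q w hbQ).symm
    have h2 : ∑ c ∈ S.filter (fun c => c < a), w c + ∑ K ∈ Q.erase b, w K ≤
        ∑ c ∈ S.filter (fun c => c < b), w c := by
      rw [← Finset.sum_union]
      · apply Finset.sum_le_sum_of_subset
        intro c hc
        rw [mem_union, mem_filter, mem_erase] at hc
        rw [mem_filter]
        rcases hc with ⟨h1, h2⟩ | ⟨h1, h2⟩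
        · exact ⟨h1, lt_of_lt_of_le h2 (Q.min'_le _ hbQ)⟩
        · exact ⟨(mem_filter.1 h2).1, lt_of_le_of_ne (Q.le_max' _ h2) h1⟩
      · rw [Finset.disjoint_left]
        intro c hc hc'
        rw [mem_filter] at hc
        rw [mem_erase] at hc'
        exact absurd hc.2 (not_lt.2 (Q.min'_le _ hc'.2))
    have h3 := (mem_filter.1 haQ).2
    have h4 := (mem_filter.1 hbQ).2
    have h5 : q * r ≤ ∑ c ∈ S.filter (fun c => c < a), w c := by
      rw [← h3]; exact Nat.div_mul_le_self _ _
    have h6 : ∑ c ∈ S.filter (fun c => c < b), w c < (q + 1) * r := by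
      rw [← h4, mul_comm]
      exact Nat.lt_mul_div_succ _ hr
    have h7 := hw b (mem_filter.1 hbQ).1
    have h8 : (q + 1) * r = q * r + r := by ring
    omega

end Pool.Agent.H694R3.MMT.Tree
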