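import Pool.Agent.H694R3.MMT.Defs

/-! # Circuits that attain the trade-off -/

open Finset MvPolynomial

namespace Pool.Agent.H694R3.MMT

variable {F : Type*} [Field F]

/-- a circuit whose gates are the elements of a finite type, numbered along a rank function -/
theorem exists_circ {σ V : Type} [Fintype V] [DecidableEq V] (reads : V → Finset σ)
    (feeds : V → Finset V) (val : V → MvPolynomial σ F) (rank : V → ℕ)
    (hrank : ∀ g, ∀ h ∈ feeds g, rank h < rank g)
    (hsound : ∀ g, val g ∈ Algebra.adjoin F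
      (MvPolynomial.X '' (reads g : Set σ) ∪ val '' (feeds g : Set V))) :
    ∃ (C : Circ F σ) (e : V ≃ Fin C.size), (∀ g, C.reads (e g) = reads g) ∧
      (∀ g, C.feeds (e g) = (feeds g).image e) ∧ (∀ g, C.val (e g) = val g) := by
  classical
  let f : V → ℕ ×ₗ Fin (Fintype.card V) := fun v => toLex (rank v, Fintype.equivFin V v)
  have hf : Function.Injective f := by
    intro a b h
    have h1 := congrArg (fun x => (ofLex x).2) h
    exact (Fintype.equivFin V).injective h1
  let _ : LinearOrder V := LinearOrder.lift' f hf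
  let e : V ≃o Fin (Fintype.card V) := (monoEquivOfFin V rfl).symm
  have hlt : ∀ a b : V, rank a < rank b → e a < e b := by
    intro a b h
    rw [e.lt_iff_lt]
    exact Prod.Lex.toLex_lt_toLex.2 (Or.inl h)
  refine ⟨⟨Fintype.card V, fun i => reads (e.symm i), fun i => (feeds (e.symm i)).image e,
    fun i => val (e.symm i), ?_, ?_⟩, e.toEquiv, ?_, ?_, ?_⟩
  · intro g h hh
    obtain ⟨v, hv, rfl⟩ := mem_image.1 hh
    have := hlt _ _ (hrank _ _ hv)
    rwa [OrderIso.apply_symm_apply] at this
  · intro g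
    have h1 := hsound (e.symm g)
    convert h1 using 4
    ext x
    constructor
    · rintro ⟨i, hi, rfl⟩
      rw [Finset.mem_coe, mem_image] at hi
      obtain ⟨v, hv, rfl⟩ := hi
      exact ⟨v, hv, by show val v = val (e.symm (e v)); rw [OrderIso.symm_apply_apply]⟩
    · rintro ⟨v, hv, rfl⟩
      refine ⟨e v, ?_, by show val (e.symm (e v)) = val v; rw [OrderIso.symm_apply_apply]⟩
      rw [Finset.mem_coe, mem_image]
      exact ⟨v, hv, rfl⟩
  · intro g
    simp
  · intro g
    simp
  · intro g
    simp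

section

variable (p q : ℕ)

/-- the gates: block, step, and kind (copy of an entry of the first matrix, copy of an entry of
the second matrix, accumulator) -/
abbrev Gt : Type := Fin (p * p) × Fin (p * q) × (Fin q ⊕ Fin q ⊕ (Fin q × Fin q))

variable {p q}

/-- the row of the block -/
def row (β : Fin (p * p)) (i : Fin q) : Fin (p * q) :=
  ⟨(β : ℕ) / p * q + i, by
    have h1 : (β : ℕ) / p < p := Nat.div_lt_of_lt_mul β.isLt
    have h2 := i.isLt
    calc (β : ℕ) / p * q + i < (β : ℕ) / p * q + q := by omega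
      _ = ((β : ℕ) / p + 1) * q := by ring
      _ ≤ p * q := Nat.mul_le_mul_right _ h1⟩

/-- the column of the block -/
def col (β : Fin (p * p)) (j : Fin q) : Fin (p * q) :=
  ⟨(β : ℕ) % p * q + j, by
    have h0 : 0 < p := by
      rcases Nat.eq_zero_or_pos p with h | h
      · subst h; exact absurd β.isLt (by simp)
      · exact h
    have h1 : (β : ℕ) % p < p := Nat.mod_lt _ h0
    have h2 := j.isLt
    calc (β : ℕ) % p * q + j < (β : ℕ) % p * q + q := by omega
      _ = ((β : ℕ) % p + 1) * q := by ring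
      _ ≤ p * q := Nat.mul_le_mul_right _ h1⟩

/-- variables read -/
def rd (v : Gt p q) : Finset (Vars (p * q)) :=
  match v.2.2 with
  | .inl i => {Sum.inl (row v.1 i, v.2.1)}
  | .inr (.inl j) => {Sum.inr (v.2.1, col v.1 j)}
  | .inr (.inr _) => ∅

/-- gates feeding a gate -/
def fd (v : Gt p q) : Finset (Gt p q) :=
  match v.2.2 with
  | .inl _ => ∅
  | .inr (.inl _) => ∅
  | .inr (.inr x) => if h : (v.2.1 : ℕ) = 0 then
      {(v.1, v.2.1, .inl x.1), (v.1, v.2.1, .inr (.inl x.2))}
    else {(v.1, ⟨v.2.1 - 1, by omega⟩, .inr (.inr x)), (v.1, v.2.1, .inl x.1),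
      (v.1, v.2.1, .inr (.inl x.2))}

/-- values -/
noncomputable def vl (F : Type*) [Field F] (v : Gt p q) : MvPolynomial (Vars (p * q)) F :=
  match v.2.2 with
  | .inl i => X (Sum.inl (row v.1 i, v.2.1))
  | .inr (.inl j) => X (Sum.inr (v.2.1, col v.1 j))
  | .inr (.inr x) => ∑ k ∈ univ.filter (fun k : Fin (p * q) => k ≤ v.2.1),
      X (Sum.inl (row v.1 x.1, k)) * X (Sum.inr (k, col v.1 x.2))

/-- rank -/
def rk (v : Gt p q) : ℕ :=
  match v.2.2 with
  | .inl _ => 0
  | .inr (.inl _) => 0
  | .inr (.inr _) => v.2.1 + 1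

lemma vl_zero (β : Fin (p * p)) (k : Fin (p * q)) (x : Fin q × Fin q) (hk : (k : ℕ) = 0) :
    vl F (β, k, .inr (.inr x)) = vl F (β, k, .inl x.1) * vl F (β, k, .inr (.inl x.2)) := by
  simp only [vl]
  have h : univ.filter (fun k' : Fin (p * q) => k' ≤ k) = {k} := by
    ext k'
    rw [mem_filter, mem_singleton]
    constructor
    · rintro ⟨-, h⟩
      apply Fin.ext
      have : (k' : ℕ) ≤ k := h
      omega
    · rintro rfl
      exact ⟨mem_univ _, le_rfl⟩
  rw [h, sum_singleton]

lemma vl_succ (β : Fin (p * p)) (k : Fin (p * q)) (x : Fin q × Fin q) (hk : ¬ (k : ℕ) = 0)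
    (k' : Fin (p * q)) (hk' : (k' : ℕ) = k - 1) :
    vl F (β, k, .inr (.inr x)) = vl F (β, k', .inr (.inr x)) +
      vl F (β, k, .inl x.1) * vl F (β, k, .inr (.inl x.2)) := by
  simp only [vl]
  have h : univ.filter (fun l : Fin (p * q) => l ≤ k) =
      insert k (univ.filter (fun l : Fin (p * q) => l ≤ k')) := by
    ext l
    rw [mem_filter, mem_insert, mem_filter, Fin.le_def, Fin.le_def, Fin.ext_iff]
    have := mem_univ l
    constructor
    · rintro ⟨-, h⟩
      by_cases h2 : (l : ℕ) = k
      · exact Or.inl h2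
      · exact Or.inr ⟨mem_univ _, by omega⟩
    · rintro (h | ⟨-, h⟩)
      · exact ⟨mem_univ _, by omega⟩
      · exact ⟨mem_univ _, by omega⟩
  rw [h, sum_insert, add_comm]
  rw [mem_filter, Fin.le_def]
  rintro ⟨-, h⟩
  omega

/-- the bag of the node `n` -/
def bg (v : Gt p q) (n : ℕ) : Prop :=
  (v.1 : ℕ) * (p * q) + v.2.1 = n ∨
    ((∃ x, v.2.2 = .inr (.inr x)) ∧ (v.1 : ℕ) * (p * q) + v.2.1 + 1 = n ∧ (v.2.1 : ℕ) + 1 < p * q)

open Classical in
lemma card_bag (n : ℕ) (hq : 0 < q) :
    (univ.filter fun v : Gt p q => bg v n).card ≤ 4 * q ^ 2 + 1 := by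
  classical
  have hinj : ∀ a b : Gt p q, (a.1 : ℕ) * (p * q) + a.2.1 = (b.1 : ℕ) * (p * q) + b.2.1 →
      a.2.2 = b.2.2 → a = b := by
    rintro ⟨β, k, x⟩ ⟨β', k', x'⟩ h1 h2
    simp only at h1 h2
    subst h2
    have hk := k.isLt
    have hk' := k'.isLt
    have hm : 0 < p * q := lt_of_le_of_lt (Nat.zero_le _) hk
    have e1 : (k : ℕ) = k' := by
      have := congrArg (fun z => z % (p * q)) h1
      simp only [Nat.mul_add_mod_self_right, Nat.mod_eq_of_lt hk, Nat.mod_eq_of_lt hk'] at this
      exact this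
    have e2 : (β : ℕ) = β' := by
      rw [e1] at h1
      exact Nat.eq_of_mul_eq_mul_right hm (Nat.add_right_cancel h1)
    rw [Fin.ext e1, Fin.ext e2]
  have h1 : (univ.filter fun v : Gt p q => (v.1 : ℕ) * (p * q) + v.2.1 = n).card ≤
      2 * q + q * q := by
    have := card_le_card_of_injOn (s := univ.filter fun v : Gt p q =>
      (v.1 : ℕ) * (p * q) + v.2.1 = n) (t := (univ : Finset (Fin q ⊕ Fin q ⊕ (Fin q × Fin q))))
      (fun v => v.2.2) (fun v _ => mem_coe.2 (mem_univ _)) (by
        intro a ha b hb hab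
        rw [Finset.mem_coe, mem_filter] at ha hb
        exact hinj a b (ha.2.trans hb.2.symm) hab)
    refine this.trans (le_of_eq ?_)
    simp only [card_univ, Fintype.card_sum, Fintype.card_prod, Fintype.card_fin]
    ring
  have h2 : (univ.filter fun v : Gt p q => (∃ x, v.2.2 = .inr (.inr x)) ∧
      (v.1 : ℕ) * (p * q) + v.2.1 + 1 = n).card ≤ q * q := by
    have := card_le_card_of_injOn (s := univ.filter fun v : Gt p q =>
      (∃ x, v.2.2 = .inr (.inr x)) ∧ (v.1 : ℕ) * (p * q) + v.2.1 + 1 = n)
      (t := (univ : Finset (Fin q × Fin q)).image fun x =>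
        (Sum.inr (Sum.inr x) : Fin q ⊕ Fin q ⊕ (Fin q × Fin q)))
      (fun v => v.2.2) (by
        intro v hv
        rw [Finset.mem_coe, mem_filter] at hv
        obtain ⟨x, hx⟩ := hv.2.1
        rw [Finset.mem_coe, mem_image]
        exact ⟨x, mem_univ _, hx.symm⟩) (by
        intro a ha b hb hab
        rw [Finset.mem_coe, mem_filter] at ha hb
        exact hinj a b (by have := ha.2.2; have := hb.2.2; omega) hab)
    refine this.trans (card_image_le.trans (le_of_eq ?_))
    simp only [card_univ, Fintype.card_prod, Fintype.card_fin]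
  have h3 : (univ.filter fun v : Gt p q => bg v n) ⊆
      (univ.filter fun v : Gt p q => (v.1 : ℕ) * (p * q) + v.2.1 = n) ∪
      (univ.filter fun v : Gt p q => (∃ x, v.2.2 = .inr (.inr x)) ∧
        (v.1 : ℕ) * (p * q) + v.2.1 + 1 = n) := by
    intro v hv
    rw [mem_filter] at hv
    rw [mem_union, mem_filter, mem_filter]
    rcases hv.2 with h | ⟨h1, h2, -⟩
    · exact Or.inl ⟨mem_univ _, h⟩
    · exact Or.inr ⟨mem_univ _, h1, h2⟩
  have h4 := (card_le_card h3).trans ((card_union_le _ _).trans (Nat.add_le_add h1 h2))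
  have h5 : 2 * q ≤ 2 * (q * q) := Nat.mul_le_mul_left _ (Nat.le_mul_of_pos_left q hq)
  have h6 : q ^ 2 = q * q := sq q
  omega

theorem upper (F : Type*) [Field F] (p q : ℕ) (hp : 0 < p) (hq : 0 < q) :
    ∃ C : Circ F (Vars (p * q)), C.ComputesProduct ∧ (∀ g, C.IsCopy g ∨ C.IsMulAdd g) ∧
      HasTreeDec C.adj (4 * q ^ 2) ∧ C.wires = 2 * p * (p * q) ^ 2 := by
  classical
  have hm : 0 < p * q := Nat.mul_pos hp hq
  obtain ⟨C, e, hr, hf, hv⟩ := exists_circ (rd (p := p) (q := q)) fd (vl F) rk (by
    rintro ⟨β, k, i | j | x⟩ h hh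
    · simp [fd] at hh
    · simp [fd] at hh
    · simp only [fd] at hh
      split_ifs at hh with h0
      · rw [mem_insert, mem_singleton] at hh
        rcases hh with rfl | rfl <;> simp [rk]
      · rw [mem_insert, mem_insert, mem_singleton] at hh
        rcases hh with rfl | rfl | rfl <;> simp [rk]
        omega) (by
    rintro ⟨β, k, i | j | x⟩
    · apply Algebra.subset_adjoin
      left
      exact ⟨_, by simp [rd], rfl⟩
    · apply Algebra.subset_adjoin
      left
      exact ⟨_, by simp [rd], rfl⟩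
    · have key : ∀ g ∈ fd (β, k, .inr (.inr x)), vl F g ∈ Algebra.adjoin F
          (MvPolynomial.X '' (rd (β, k, .inr (.inr x)) : Set (Vars (p * q))) ∪
            vl F '' (fd (β, k, .inr (.inr x)) : Set (Gt p q))) := fun g hg =>
        Algebra.subset_adjoin (Or.inr ⟨g, hg, rfl⟩)
      by_cases hk : (k : ℕ) = 0
      · rw [vl_zero β k x hk]
        exact Subalgebra.mul_mem _ (key _ (by simp [fd, hk])) (key _ (by simp [fd, hk]))
      · rw [vl_succ β k x hk ⟨k - 1, by omega⟩ rfl]
        refine Subalgebra.add_mem _ (key _ (by simp [fd, hk]))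
          (Subalgebra.mul_mem _ (key _ (by simp [fd, hk])) (key _ (by simp [fd, hk]))))
  refine ⟨C, ?_, ?_, ?_, ?_⟩
  · intro i j
    have hi1 : (i : ℕ) / q < p := (Nat.div_lt_iff_lt_mul hq).2 i.isLt
    have hj1 : (j : ℕ) / q < p := (Nat.div_lt_iff_lt_mul hq).2 j.isLt
    have hβ : (i : ℕ) / q * p + (j : ℕ) / q < p * p := by
      calc (i : ℕ) / q * p + (j : ℕ) / q < (i : ℕ) / q * p + p := by omega
        _ = ((i : ℕ) / q + 1) * p := by ring
        _ ≤ p * p := Nat.mul_le_mul_right _ hi1
    let β : Fin (p * p) := ⟨(i : ℕ) / q * p + (j : ℕ) / q, hβ⟩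
    let k : Fin (p * q) := ⟨p * q - 1, by omega⟩
    let x : Fin q × Fin q := (⟨(i : ℕ) % q, Nat.mod_lt _ hq⟩, ⟨(j : ℕ) % q, Nat.mod_lt _ hq⟩)
    refine ⟨e (β, k, .inr (.inr x)), ?_⟩
    rw [hv]
    simp only [vl, entry]
    have h1 : row β x.1 = i := by
      apply Fin.ext
      simp only [row, β, x]
      have e1 : ((i : ℕ) / q * p + (j : ℕ) / q) / p = (i : ℕ) / q := by
        rw [mul_comm, Nat.mul_add_div hp, Nat.div_eq_of_lt hj1, add_zero]
      rw [e1]
      exact Nat.div_add_mod' _ _
    have h2 : col β x.2 = j := by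
      apply Fin.ext
      simp only [col, β, x]
      have e1 : ((i : ℕ) / q * p + (j : ℕ) / q) % p = (j : ℕ) / q := by
        rw [mul_comm, Nat.mul_add_mod, Nat.mod_eq_of_lt hj1]
      rw [e1]
      exact Nat.div_add_mod' _ _
    rw [h1, h2]
    apply Finset.sum_congr _ fun _ _ => rfl
    ext k'
    rw [mem_filter, Fin.le_def]
    simp only [mem_univ, true_and, iff_true, k]
    have := k'.isLt
    omega
  · intro g
    obtain ⟨v, rfl⟩ := e.surjective g
    obtain ⟨β, k, i | j | x⟩ := v
    · left
      exact ⟨Sum.inl (row β i, k), by rw [hr]; rfl, by rw [hf]; simp [fd], by rw [hv]; rfl⟩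
    · left
      exact ⟨Sum.inr (k, col β j), by rw [hr]; rfl, by rw [hf]; simp [fd], by rw [hv]; rfl⟩
    · right
      refine ⟨by rw [hr]; rfl, ?_⟩
      by_cases hk : (k : ℕ) = 0
      · left
        refine ⟨e (β, k, .inl x.1), e (β, k, .inr (.inl x.2)), ?_, ?_⟩
        · rw [hf]
          simp only [fd, dif_pos hk, image_insert, image_singleton]
        · rw [hv, hv, hv, vl_zero β k x hk]
      · right
        refine ⟨e (β, ⟨k - 1, by omega⟩, .inr (.inr x)), e (β, k, .inl x.1),
          e (β, k, .inr (.inl x.2)), ?_, ?_⟩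
        · rw [hf]
          simp only [fd, dif_neg hk, image_insert, image_singleton]
        · rw [hv, hv, hv, hv, vl_succ β k x hk ⟨k - 1, by omega⟩ rfl]
  · -- the tree decomposition
    have hT : p * p * (p * q) - 1 + 1 = p * p * (p * q) :=
      Nat.sub_add_cancel (Nat.mul_pos (Nat.mul_pos hp hp) hm)
    refine ⟨p * p * (p * q) - 1, fun i => ⟨(i : ℕ) - 1, by omega⟩,
      fun n => univ.filter fun g => bg (e.symm g) (n : ℕ), ?_, ?_, ?_, ?_⟩
    · intro i hi
      rw [Fin.lt_def] at hi ⊢
      simp only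
      have : (0 : ℕ) < i := hi
      omega
    · intro n
      have h1 : (univ.filter fun g => bg (e.symm g) (n : ℕ)).card =
          (univ.filter fun v : Gt p q => bg v (n : ℕ)).card := by
        rw [← Finset.card_image_of_injective _ e.injective]
        congr 1
        ext g
        rw [mem_filter, mem_image]
        constructor
        · intro h
          exact ⟨e.symm g, mem_filter.2 ⟨mem_univ _, h.2⟩, e.apply_symm_apply g⟩
        · rintro ⟨v, hv, rfl⟩
          exact ⟨mem_univ _, by rw [e.symm_apply_apply]; exact (mem_filter.1 hv).2⟩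
      rw [h1]
      exact card_bag (n : ℕ) hq
    · intro g
      obtain ⟨v, rfl⟩ := e.surjective g
      have hnode : (v.1 : ℕ) * (p * q) + v.2.1 < p * p * (p * q) := by
        have h1 := v.1.isLt
        have h2 := v.2.1.isLt
        calc (v.1 : ℕ) * (p * q) + v.2.1 < (v.1 : ℕ) * (p * q) + p * q := by omega
          _ = ((v.1 : ℕ) + 1) * (p * q) := by ring
          _ ≤ _ := Nat.mul_le_mul_right _ h1
      refine ⟨⟨(v.1 : ℕ) * (p * q) + v.2.1, by omega⟩, ⟨?_, ?_⟩, ?_⟩
      · simp [bg]
      · by_cases h0 : (v.1 : ℕ) * (p * q) + v.2.1 = 0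
        · left
          exact Fin.ext h0
        · right
          rw [mem_filter]
          rintro ⟨-, h⟩
          rw [e.symm_apply_apply] at h
          simp only [bg] at h
          omega
      · rintro n ⟨h1, h2⟩
        rw [mem_filter, e.symm_apply_apply] at h1
        rcases h1.2 with h | ⟨h3, h4, h5⟩
        · exact Fin.ext h.symm
        · exfalso
          rcases h2 with h2 | h2
          · have : (n : ℕ) = 0 := by rw [h2]; rfl
            omega
          · apply h2
            rw [mem_filter, e.symm_apply_apply]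
            refine ⟨mem_univ _, Or.inl ?_⟩
            simp only
            omega
    · -- edges
      have key : ∀ v w : Gt p q, w ∈ fd v →
          bg v ((v.1 : ℕ) * (p * q) + v.2.1) ∧ bg w ((v.1 : ℕ) * (p * q) + v.2.1) := by
        rintro ⟨β, k, i | j | x⟩ w hw
        · simp [fd] at hw
        · simp [fd] at hw
        · refine ⟨Or.inl rfl, ?_⟩
          simp only [fd] at hw
          split_ifs at hw with h0
          · rw [mem_insert, mem_singleton] at hw
            rcases hw with rfl | rfl <;> exact Or.inl rfl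
          · rw [mem_insert, mem_insert, mem_singleton] at hw
            rcases hw with rfl | rfl | rfl
            · right
              refine ⟨⟨x, rfl⟩, ?_, ?_⟩
              · simp only
                omega
              · simp only
                have := k.isLt
                omega
            · exact Or.inl rfl
            · exact Or.inl rfl
      have hnode : ∀ v : Gt p q, (v.1 : ℕ) * (p * q) + v.2.1 < p * p * (p * q) := by
        intro v
        have h1 := v.1.isLt
        have h2 := v.2.1.isLt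
        calc (v.1 : ℕ) * (p * q) + v.2.1 < (v.1 : ℕ) * (p * q) + p * q := by omega
          _ = ((v.1 : ℕ) + 1) * (p * q) := by ring
          _ ≤ _ := Nat.mul_le_mul_right _ h1
      have hfe : ∀ g h : Fin C.size, h ∈ C.feeds g → e.symm h ∈ fd (e.symm g) := by
        intro g h hh
        obtain ⟨v, rfl⟩ := e.surjective g
        rw [hf] at hh
        obtain ⟨w, hw, rfl⟩ := mem_image.1 hh
        rw [e.symm_apply_apply, e.symm_apply_apply]
        exact hw
      intro g h hgh
      rcases hgh with hgh | hgh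
      · have h1 := key _ _ (hfe g h hgh)
        refine ⟨⟨_, lt_of_lt_of_eq (hnode (e.symm g)) hT.symm⟩, ?_, ?_⟩
        · exact mem_filter.2 ⟨mem_univ _, h1.1⟩
        · exact mem_filter.2 ⟨mem_univ _, h1.2⟩
      · have h1 := key _ _ (hfe h g hgh)
        refine ⟨⟨_, lt_of_lt_of_eq (hnode (e.symm h)) hT.symm⟩, ?_, ?_⟩
        · exact mem_filter.2 ⟨mem_univ _, h1.2⟩
        · exact mem_filter.2 ⟨mem_univ _, h1.1⟩
  · -- the wires
    have h1 : C.wires = ∑ v : Gt p q, (rd v).card := by
      unfold Circ.wires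
      rw [← e.sum_comp]
      apply Finset.sum_congr rfl
      intro v _
      rw [hr]
    rw [h1, Fintype.sum_prod_type]
    simp only [Fintype.sum_prod_type, Fintype.sum_sum_type, rd, card_singleton, card_empty]
    simp only [sum_const, card_univ, Fintype.card_fin, smul_eq_mul, mul_one, mul_zero, add_zero]
    ring

end

end Pool.Agent.H694R3.MMT
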